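import Mathlib
import Pool.Agent.R634.Wreath

/-!
# LEF groups and LEF growth: definitions and the lamp groups used for MP_bb1fdc
-/

namespace Pool.Agent.R634.Lef

open Pool.Agent.R634

/-! ## Definitions used in the statement -/

/-- `π : G → Q` restricts to a local embedding of `F`: it is injective on `F` and
`π (g h) = π g π h` whenever `g, h, g h ∈ F`. -/
def IsLocalEmbedding {G Q : Type*} [Group G] [Group Q] (F : Set G) (π : G → Q) : Prop :=
  Set.InjOn π F ∧ ∀ g ∈ F, ∀ h ∈ F, g * h ∈ F → π (g * h) = π g * π h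

/-- `G` is locally embeddable into finite groups. -/
def IsLEF (G : Type*) [Group G] : Prop :=
  ∀ F : Set G, F.Finite →
    ∃ (Q : Type) (_ : Group Q) (_ : Finite Q) (π : G → Q), IsLocalEmbedding F π

/-- The orders of the finite groups admitting a local embedding of the ball of radius `n`. -/
def lefSet {G : Type*} [Group G] (S : Set G) (n : ℕ) : Set ℕ :=
  {m | ∃ (Q : Type) (_ : Group Q) (_ : Finite Q) (π : G → Q),
    IsLocalEmbedding (ball S n) π ∧ Nat.card Q = m}

/-- The LEF growth of `G` with respect to the generating set `S`. -/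
noncomputable def lefGrowth {G : Type*} [Group G] (S : Set G) (n : ℕ) : ℕ :=
  sInf (lefSet S n)

/-- `f₁ ⪯ f₂`, for functions on `ℕ` extended to `(0, ∞)` by making them constant on the
intervals `(n, n + 1]`: there is a real `C > 0` with `f₁ x ≤ f₂ (C x)` for all `x > 0`. -/
def GPreceq (f₁ f₂ : ℕ → ℕ) : Prop :=
  ∃ C : ℝ, 0 < C ∧ ∀ x : ℝ, 0 < x → f₁ ⌈x⌉₊ ≤ f₂ ⌈C * x⌉₊

/-- `f₁ ≈ f₂`. -/
def GEquiv (f₁ f₂ : ℕ → ℕ) : Prop := GPreceq f₁ f₂ ∧ GPreceq f₂ f₁

/-! ## Balls -/

section ball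

variable {G : Type*} [Group G] {S : Set G}

lemma ball_mono {m n : ℕ} (h : m ≤ n) : ball S m ⊆ ball S n := by
  rintro g ⟨l, hl, hS, rfl⟩
  exact ⟨l, hl.trans h, hS, rfl⟩

lemma one_mem_ball (n : ℕ) : (1 : G) ∈ ball S n :=
  ⟨[], by simp, by simp, by simp⟩

lemma mul_mem_ball {m n : ℕ} {g h : G} (hg : g ∈ ball S m) (hh : h ∈ ball S n) :
    g * h ∈ ball S (m + n) := by
  obtain ⟨l, hl, hS, rfl⟩ := hg
  obtain ⟨l', hl', hS', rfl⟩ := hh
  refine ⟨l ++ l', by rw [List.length_append]; omega, ?_, by rw [List.prod_append]⟩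
  intro s hs
  rcases List.mem_append.mp hs with h | h
  · exact hS s h
  · exact hS' s h

lemma inv_mem_ball {n : ℕ} {g : G} (hg : g ∈ ball S n) : g⁻¹ ∈ ball S n := by
  obtain ⟨l, hl, hS, rfl⟩ := hg
  refine ⟨(l.map (·⁻¹)).reverse, by simpa using hl, ?_, ?_⟩
  · intro s hs
    rw [List.mem_reverse, List.mem_map] at hs
    obtain ⟨t, ht, rfl⟩ := hs
    rcases hS t ht with h | h
    · right; simpa using h
    · left; exact h
  · rw [List.prod_inv_reverse]

lemma mem_ball_of_mem {g : G} (hg : g ∈ S) : g ∈ ball S 1 :=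
  ⟨[g], by simp, by simp [hg], by simp⟩

lemma zpow_mem_ball {m : ℕ} {g : G} (hg : g ∈ ball S m) (z : ℤ) :
    g ^ z ∈ ball S (m * z.natAbs) := by
  have h1 : ∀ k : ℕ, g ^ k ∈ ball S (m * k) := by
    intro k
    induction k with
    | zero => simpa using one_mem_ball 0
    | succ k ih =>
      rw [pow_succ, Nat.mul_succ]
      exact mul_mem_ball ih hg
  rcases Int.natAbs_eq z with h | h
  · rw [h, zpow_natCast, Int.natAbs_natCast]
    exact h1 _
  · rw [h, zpow_neg, zpow_natCast, Int.natAbs_neg, Int.natAbs_natCast]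
    exact inv_mem_ball (h1 _)

/-- If `T ⊆ ball S c` then `ball T n ⊆ ball S (c n)`. -/
lemma ball_subset_ball {T : Set G} {c : ℕ} (hT : T ⊆ ball S c) (n : ℕ) :
    ball T n ⊆ ball S (c * n) := by
  rintro g ⟨l, hl, hS, rfl⟩
  have key : ∀ l : List G, (∀ s ∈ l, s ∈ T ∨ s⁻¹ ∈ T) → l.prod ∈ ball S (c * l.length) := by
    intro l
    induction l with
    | nil => intro _; simpa using one_mem_ball 0
    | cons a l ih =>
      intro h
      have h1 := ih (fun s hs => h s (List.mem_cons_of_mem _ hs))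
      have h2 : a ∈ ball S c := by
        rcases h a List.mem_cons_self with h | h
        · exact hT h
        · have := inv_mem_ball (hT h)
          simpa using this
      rw [List.prod_cons, List.length_cons, Nat.mul_succ, add_comm]
      exact mul_mem_ball h2 h1
  exact ball_mono (Nat.mul_le_mul_left _ hl) (key l hS)

lemma exists_mem_ball (hS : Subgroup.closure S = ⊤) (g : G) : ∃ n, g ∈ ball S n := by
  have hg : g ∈ Subgroup.closure S := by rw [hS]; trivial
  induction hg using Subgroup.closure_induction with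
  | mem x hx => exact ⟨1, mem_ball_of_mem hx⟩
  | one => exact ⟨0, one_mem_ball 0⟩
  | mul x y _ _ hx hy =>
    obtain ⟨m, hm⟩ := hx
    obtain ⟨n, hn⟩ := hy
    exact ⟨m + n, mul_mem_ball hm hn⟩
  | inv x _ hx =>
    obtain ⟨m, hm⟩ := hx
    exact ⟨m, inv_mem_ball hm⟩

lemma exists_subset_ball (hS : Subgroup.closure S = ⊤) {T : Set G} (hT : T.Finite) :
    ∃ c, 1 ≤ c ∧ T ⊆ ball S c := by
  choose n hn using exists_mem_ball hS
  obtain ⟨c, hc⟩ := (hT.image n).bddAbove
  refine ⟨c + 1, by omega, fun g hg => ?_⟩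
  exact ball_mono ((hc ⟨g, hg, rfl⟩).trans (Nat.le_succ c)) (hn g)

end ball

section growth

variable {G : Type*} [Group G]

lemma IsLocalEmbedding.mono {Q : Type*} [Group Q] {F F' : Set G} {π : G → Q}
    (h : IsLocalEmbedding F π) (hF : F' ⊆ F) : IsLocalEmbedding F' π :=
  ⟨h.1.mono hF, fun g hg k hk hgk => h.2 g (hF hg) k (hF hk) (hF hgk)⟩

lemma finite_ball {S : Set G} (hS : S.Finite) (n : ℕ) : (ball S n).Finite := by
  induction n with
  | zero =>
    refine (Set.finite_singleton (1 : G)).subset ?_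
    rintro g ⟨l, hl, -, rfl⟩
    have : l = [] := List.length_eq_zero_iff.mp (Nat.le_zero.mp hl)
    simp [this]
  | succ n ih =>
    have hfin : (Set.image2 (· * ·) (insert (1:G) (S ∪ S⁻¹)) (ball S n)).Finite :=
      ((hS.union hS.inv).insert _).image2 _ ih
    refine hfin.subset ?_
    rintro g ⟨l, hl, hl2, rfl⟩
    cases l with
    | nil => exact ⟨1, Set.mem_insert _ _, 1, one_mem_ball n, by simp⟩
    | cons a l =>
      refine ⟨a, Set.mem_insert_of_mem _ ?_, l.prod, ⟨l, ?_, ?_, rfl⟩, by simp⟩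
      · rcases hl2 a List.mem_cons_self with h | h
        · exact Or.inl h
        · exact Or.inr h
      · rw [List.length_cons] at hl; omega
      · exact fun s hs => hl2 s (List.mem_cons_of_mem _ hs)

lemma lefSet_nonempty (hG : IsLEF G) {S : Set G} (hS : S.Finite) (n : ℕ) :
    (lefSet S n).Nonempty := by
  obtain ⟨Q, i1, i2, π, hπ⟩ := hG (ball S n) (finite_ball hS n)
  exact ⟨Nat.card Q, Q, i1, i2, π, hπ, rfl⟩

lemma lefGrowth_mono (hG : IsLEF G) {S : Set G} (hS : S.Finite) : Monotone (lefGrowth S) := by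
  intro m n hmn
  have h1 : lefGrowth S n ∈ lefSet S n := Nat.sInf_mem (lefSet_nonempty hG hS n)
  apply Nat.sInf_le
  obtain ⟨Q, i1, i2, π, hπ, hc⟩ := h1
  exact ⟨Q, i1, i2, π, hπ.mono (ball_mono hmn), hc⟩

end growth

end Pool.Agent.R634.Lef
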