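import Mathlib
import Pool.Agent.R634.Lef.Basic

/-!
# Lamp groups over families of words
-/

namespace Pool.Agent.R634.Lef

open Pool.Agent.R634

set_option linter.unusedSectionVars false

/-- Independent commuting elements force a finite group to be large. -/
lemma two_pow_le_card {Q U : Type*} [Group Q] [Finite Q] [Fintype U] (g h : U → Q)
    (hgg : ∀ u v, g u * g v = g v * g u) (hgh : ∀ u v, u ≠ v → g u * h v = h v * g u)
    (hne : ∀ v, g v * h v ≠ h v * g v) : 2 ^ Fintype.card U ≤ Nat.card Q := by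
  classical
  have hcomm : ∀ s : Finset U, (s : Set U).Pairwise (Function.onFun Commute g) :=
    fun s u _ v _ _ => hgg u v
  let Pr : Finset U → Q := fun s => s.noncommProd g (hcomm s)
  have hPr : ∀ (s : Finset U) (v : U), Commute (h v) (Pr s) ↔ v ∉ s := by
    intro s v
    constructor
    · intro hc hv
      have h1 : g v * (s.erase v).noncommProd g (hcomm _) = Pr s :=
        Finset.mul_noncommProd_erase s hv g (hcomm s)
      have h2 : Commute (h v) ((s.erase v).noncommProd g (hcomm _)) := by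
        apply Finset.noncommProd_commute
        intro x hx
        have : x ≠ v := (Finset.mem_erase.mp hx).1
        exact (hgh x v this).symm
      rw [← h1] at hc
      have h3 : Commute (h v) (g v) := by
        have := hc.mul_right h2.inv_right
        rwa [mul_inv_cancel_right] at this
      exact hne v h3.eq.symm
    · intro hv
      apply Finset.noncommProd_commute
      intro x hx
      have : x ≠ v := fun h => hv (h ▸ hx)
      exact (hgh x v this).symm
  have hinj : Function.Injective Pr := by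
    intro s t hst
    ext v
    rw [← not_iff_not, ← hPr s v, ← hPr t v, hst]
  have h1 := Nat.card_le_card_of_injective Pr hinj
  rwa [Nat.card_eq_fintype_card, Fintype.card_finset] at h1

/-- The unrestricted lamp group `(Y × C → P) ⋊ C`. -/
@[ext]
structure Lamp (Y C P : Type) where
  /-- the lamp configuration -/
  f : Y → C → P
  /-- the shift -/
  s : C

namespace Lamp

variable {Y C P : Type} [AddCommGroup C] [Group P]

instance : Mul (Lamp Y C P) := ⟨fun g h => ⟨fun y m => g.f y m * h.f y (m - g.s), g.s + h.s⟩⟩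
instance : One (Lamp Y C P) := ⟨⟨fun _ _ => 1, 0⟩⟩
instance : Inv (Lamp Y C P) := ⟨fun g => ⟨fun y m => (g.f y (m + g.s))⁻¹, -g.s⟩⟩

@[simp] lemma mul_f (g h : Lamp Y C P) (y : Y) (m : C) :
    (g * h).f y m = g.f y m * h.f y (m - g.s) := rfl
@[simp] lemma mul_s (g h : Lamp Y C P) : (g * h).s = g.s + h.s := rfl
@[simp] lemma one_f (y : Y) (m : C) : (1 : Lamp Y C P).f y m = 1 := rfl
@[simp] lemma one_s : (1 : Lamp Y C P).s = 0 := rfl
@[simp] lemma inv_f (g : Lamp Y C P) (y : Y) (m : C) : (g⁻¹).f y m = (g.f y (m + g.s))⁻¹ := rfl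
@[simp] lemma inv_s (g : Lamp Y C P) : (g⁻¹).s = -g.s := rfl

instance : Group (Lamp Y C P) :=
  Group.ofLeftAxioms
    (by
      intro x y z
      ext u m
      · simp [mul_assoc, sub_sub]
      · simp [add_assoc])
    (by
      intro x
      ext u m
      · simp
      · simp)
    (by
      intro x
      ext u m
      · simp
      · simp)

/-- Equivalence with a product, for counting. -/
def equivProd (Y C P : Type) : Lamp Y C P ≃ (Y → C → P) × C where
  toFun g := (g.f, g.s)
  invFun g := ⟨g.1, g.2⟩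
  left_inv _ := rfl
  right_inv _ := rfl

lemma card_lamp (Y C P : Type) [AddCommGroup C] [Group P] [Finite Y] [Finite C] [Finite P] :
    Finite (Lamp Y C P) ∧
      Nat.card (Lamp Y C P) = Nat.card P ^ (Nat.card Y * Nat.card C) * Nat.card C := by
  refine ⟨Finite.of_equiv _ (equivProd Y C P).symm, ?_⟩
  rw [Nat.card_congr (equivProd Y C P), Nat.card_prod, Nat.card_fun, Nat.card_fun, ← pow_mul,
    mul_comm (Nat.card C)]

end Lamp

/-! ## Radius -/

section radius

variable {Y P L : Type} [Group P]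

/-- `f y m` depends only on the window of radius `n` of the word `c y` around `m`. -/
def Loc (c : Y → ℤ → L) (n : ℕ) (f : Y → ℤ → P) : Prop :=
  ∀ y m y' m', (∀ j : ℤ, |j| ≤ n → c y (m + j) = c y' (m' + j)) → f y m = f y' m'

/-- `g` has radius at most `n`. -/
def Rad (c : Y → ℤ → L) (n : ℕ) (g : Lamp Y ℤ P) : Prop := Loc c n g.f ∧ |g.s| ≤ n

lemma Loc.mono {c : Y → ℤ → L} {m n : ℕ} (h : m ≤ n) {f : Y → ℤ → P} (hf : Loc c m f) :
    Loc c n f := by
  intro y a y' a' hw
  exact hf y a y' a' fun j hj => hw j (hj.trans (by exact_mod_cast h))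

lemma Rad.mono {c : Y → ℤ → L} {m n : ℕ} (h : m ≤ n) {g : Lamp Y ℤ P} (hg : Rad c m g) :
    Rad c n g :=
  ⟨hg.1.mono h, hg.2.trans (by exact_mod_cast h)⟩

lemma Rad.one (c : Y → ℤ → L) : Rad c 0 (1 : Lamp Y ℤ P) :=
  ⟨fun _ _ _ _ _ => rfl, by simp⟩

lemma Rad.mul {c : Y → ℤ → L} {m n : ℕ} {g h : Lamp Y ℤ P} (hg : Rad c m g) (hh : Rad c n h) :
    Rad c (m + n) (g * h) := by
  obtain ⟨hg1, hg2⟩ := hg
  obtain ⟨hh1, hh2⟩ := hh
  rw [abs_le] at hg2 hh2
  refine ⟨?_, ?_⟩
  · intro y a y' a' hw
    rw [Lamp.mul_f, Lamp.mul_f]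
    have e1 : g.f y a = g.f y' a' := by
      apply hg1
      intro j hj
      apply hw
      push_cast
      have := Nat.cast_nonneg (α := ℤ) n
      linarith
    have e2 : h.f y (a - g.s) = h.f y' (a' - g.s) := by
      apply hh1
      intro j hj
      have := hw (-g.s + j) (by
        rw [abs_le] at hj ⊢
        push_cast
        constructor <;> linarith [hj.1, hj.2, hg2.1, hg2.2])
      rw [show a - g.s + j = a + (-g.s + j) by ring, show a' - g.s + j = a' + (-g.s + j) by ring]
      exact this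
    rw [e1, e2]
  · rw [Lamp.mul_s, abs_le]
    push_cast
    constructor <;> linarith [hg2.1, hg2.2, hh2.1, hh2.2]

lemma Rad.inv {c : Y → ℤ → L} {n : ℕ} {g : Lamp Y ℤ P} (hg : Rad c n g) :
    Rad c (2 * n) (g⁻¹) := by
  obtain ⟨hg1, hg2⟩ := hg
  rw [abs_le] at hg2
  refine ⟨?_, ?_⟩
  · intro y a y' a' hw
    rw [Lamp.inv_f, Lamp.inv_f]
    congr 1
    apply hg1
    intro j hj
    have := hw (g.s + j) (by
      rw [abs_le] at hj ⊢
      push_cast
      constructor <;> linarith [hj.1, hj.2, hg2.1, hg2.2])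
    rw [add_assoc, add_assoc]
    exact this
  · rw [Lamp.inv_s, abs_le]
    push_cast
    constructor <;> linarith [hg2.1, hg2.2]

/-- **Local embedding lemma.** -/
theorem exists_localEmbedding {Y' : Type} {q R : ℕ} (hq : 2 * R < q)
    (c : Y → ℤ → L) (c' : Y' → ZMod q → L)
    (h1 : ∀ (y' : Y') (m' : ZMod q), ∃ (y : Y) (m : ℤ), ∀ j : ℤ, |j| ≤ 2 * R →
      c' y' (m' + j) = c y (m + j))
    (h2 : ∀ (y : Y) (m : ℤ), ∃ (y' : Y') (m' : ZMod q), ∀ j : ℤ, |j| ≤ R →
      c y (m + j) = c' y' (m' + j))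
    (F : Set (Lamp Y ℤ P)) (hF : ∀ g ∈ F, Rad c R g) :
    ∃ π : Lamp Y ℤ P → Lamp Y' (ZMod q) P, IsLocalEmbedding F π := by
  choose σ τ hστ using h1
  refine ⟨fun g => ⟨fun y' m' => g.f (σ y' m') (τ y' m'), (g.s : ZMod q)⟩, ?_, ?_⟩
  · intro g hg h hh hgh
    have e1 := congrArg Lamp.f hgh
    have e2 := congrArg Lamp.s hgh
    simp only at e1 e2
    obtain ⟨hg1, hg2⟩ := hF g hg
    obtain ⟨hh1, hh2⟩ := hF h hh
    ext y m
    · obtain ⟨y', m', hw⟩ := h2 y m
      have e3 : g.f y m = g.f (σ y' m') (τ y' m') := by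
        apply hg1
        intro j hj
        rw [hw j hj, hστ y' m' j (by linarith [abs_nonneg j])]
      have e4 : h.f y m = h.f (σ y' m') (τ y' m') := by
        apply hh1
        intro j hj
        rw [hw j hj, hστ y' m' j (by linarith [abs_nonneg j])]
      rw [e3, e4]
      exact congrFun (congrFun e1 y') m'
    · rw [ZMod.intCast_eq_intCast_iff_dvd_sub] at e2
      rw [abs_le] at hg2 hh2
      obtain ⟨k, hk⟩ := e2
      have hq' : (2 * (R : ℤ)) < q := by exact_mod_cast hq
      have hk0 : k = 0 := by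
        by_contra hk0
        have h3 : (q : ℤ) ≤ |(q : ℤ) * k| := by
          rw [abs_mul]
          have h4 : 1 ≤ |k| := Int.one_le_abs hk0
          have h5 : (0 : ℤ) ≤ q := Nat.cast_nonneg _
          rw [abs_of_nonneg h5]
          nlinarith
        rw [← hk] at h3
        have h4 : |h.s - g.s| ≤ 2 * R := by
          rw [abs_le]
          constructor <;> linarith [hg2.1, hg2.2, hh2.1, hh2.2]
        linarith
      rw [hk0, mul_zero] at hk
      linarith
  · intro g hg h hh _
    obtain ⟨hg1, hg2⟩ := hF g hg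
    obtain ⟨hh1, hh2⟩ := hF h hh
    rw [abs_le] at hg2
    ext y' m'
    · simp only [Lamp.mul_f]
      congr 1
      apply hh1
      intro j hj
      rw [abs_le] at hj
      have e1 := hστ y' m' (-g.s + j) (by
        rw [abs_le]
        constructor <;> linarith [hj.1, hj.2, hg2.1, hg2.2])
      have e2 := hστ y' (m' - (g.s : ZMod q)) j (by
        rw [abs_le]
        constructor <;> linarith [hj.1, hj.2])
      rw [← e2, show τ y' m' - g.s + j = τ y' m' + (-g.s + j) by ring, ← e1]
      congr 1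
      push_cast
      ring
    · simp

end radius

end Pool.Agent.R634.Lef
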