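import Mathlib
import Pool.Agent.R634.Lef.Lamp

/-!
# The words and the groups `Grp A`
-/

namespace Pool.Agent.R634.Lef

open Pool.Agent.R634 Equiv

set_option linter.unusedSectionVars false

/-- The scales `K_i`: `K_0 = 1`, `K_{i+1} = 2 ^ 2 ^ 2 ^ K_i`. -/
def KK : ℕ → ℕ
  | 0 => 1
  | (i + 1) => 2 ^ (2 ^ (2 ^ (KK i)))

/-- The number of letters `l_i = 2 ^ K_i`. -/
def ll (i : ℕ) : ℕ := 2 ^ (KK i)

/-- The word with letters `u 0, …, u (l - 1)` at the positions `0, K, …, (l - 1) K`, all other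
letters being blank. -/
def pat (K l : ℕ) (u : Fin l → Bool) (m : ℤ) : Option Bool :=
  if h : 0 ≤ m ∧ (K : ℤ) ∣ m ∧ (m / K).toNat < l then some (u ⟨(m / K).toNat, h.2.2⟩) else none

/-- The index set of the words: two one-letter words, and all patterns of length `ll j` for
`j ∈ A`. -/
abbrev YY (A : ℕ → Prop) : Type := Bool ⊕ (Σ j : {j // A j}, (Fin (ll j.1) → Bool))

/-- The words. -/
def word (A : ℕ → Prop) : YY A → ℤ → Option Bool
  | Sum.inl a, m => if m = 0 then some a else none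
  | Sum.inr ⟨j, u⟩, m => pat (KK j.1) (ll j.1) u m

/-- The `5`-cycle. -/
def xx : Perm (Fin 5) := c[0, 1, 2, 3, 4]
/-- A `3`-cycle. -/
def ss : Perm (Fin 5) := c[0, 3, 2]
/-- Another `3`-cycle. -/
def ss' : Perm (Fin 5) := c[0, 1, 2]

/-- The group `(Y × ℤ → Perm (Fin 5)) ⋊ ℤ`. -/
abbrev WW (A : ℕ → Prop) : Type := Lamp (YY A) ℤ (Perm (Fin 5))

/-- The shift. -/
def gT (A : ℕ → Prop) : WW A := ⟨fun _ _ => 1, 1⟩
/-- The `5`-cycle at all places with letter `a`. -/
def gL (A : ℕ → Prop) (a : Bool) : WW A :=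
  ⟨fun y m => if word A y m = some a then xx else 1, 0⟩
/-- The constant lamp configurations. -/
def gC (A : ℕ → Prop) (p : Perm (Fin 5)) : WW A := ⟨fun _ _ => p, 0⟩

/-- The generators. -/
def gens (A : ℕ → Prop) : Set (WW A) := {gT A, gL A true, gL A false, gC A ss, gC A ss'}

/-- The group `G_A`. -/
abbrev Grp (A : ℕ → Prop) : Type := Subgroup.closure (gens A)

/-! ## Scales -/

lemma KK_pos (i : ℕ) : 1 ≤ KK i := by
  cases i with
  | zero => exact le_rfl
  | succ i => exact Nat.one_le_two_pow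

lemma KK_lt_ll (i : ℕ) : KK i < ll i := Nat.lt_two_pow_self

lemma ll_pos (i : ℕ) : 1 ≤ ll i := Nat.one_le_two_pow

lemma KK_succ (i : ℕ) : KK (i + 1) = 2 ^ (2 ^ (ll i)) := rfl

lemma KK_lt_succ (i : ℕ) : KK i < KK (i + 1) := by
  rw [KK_succ]
  exact (KK_lt_ll i).trans (Nat.lt_two_pow_self.trans Nat.lt_two_pow_self)

lemma KK_strictMono : StrictMono KK := strictMono_nat_of_lt_succ KK_lt_succ

lemma lt_KK (i : ℕ) : i < KK i := by
  induction i with
  | zero => exact KK_pos 0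
  | succ i ih =>
    have := KK_lt_succ i
    omega

lemma ll_mul_KK_le (i : ℕ) : ll i * KK i ≤ KK (i + 1) := by
  rw [KK_succ]
  calc ll i * KK i ≤ ll i * ll i := Nat.mul_le_mul_left _ (KK_lt_ll i).le
    _ ≤ 2 ^ (ll i) * 2 ^ (ll i) :=
        Nat.mul_le_mul Nat.lt_two_pow_self.le Nat.lt_two_pow_self.le
    _ = 2 ^ (2 * ll i) := by rw [two_mul, pow_add]
    _ ≤ 2 ^ (2 ^ (ll i)) := by
        apply Nat.pow_le_pow_right (by norm_num)
        -- 2 l ≤ 2 ^ l for l ≥ 1 a power of two, l = 2 ^ K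
        have h2 : 2 ≤ ll i := by
          calc 2 = 2 ^ 1 := rfl
            _ ≤ 2 ^ KK i := Nat.pow_le_pow_right (by norm_num) (KK_pos i)
        obtain ⟨m, hm⟩ : ∃ m, ll i = m + 2 := ⟨ll i - 2, by omega⟩
        rw [hm]
        have h3 : m + 1 ≤ 2 ^ m := Nat.lt_two_pow_self
        calc 2 * (m + 2) ≤ 4 * (m + 1) := by omega
          _ ≤ 4 * 2 ^ m := Nat.mul_le_mul_left _ h3
          _ = 2 ^ (m + 2) := by rw [pow_add]; ring

lemma sum_le_KK (i : ℕ) : 2 + ∑ j ∈ Finset.range (i + 1), 2 ^ (ll j) ≤ KK (i + 1) := by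
  induction i with
  | zero =>
    have h0 : KK 0 = 1 := rfl
    have h1 : ll 0 = 2 := by rw [ll, h0]; norm_num
    rw [KK_succ, zero_add, Finset.sum_range_one, h1]
    norm_num
  | succ i ih =>
    rw [Finset.sum_range_succ, ← add_assoc]
    have h1 : KK (i + 1) ≤ 2 ^ (ll (i + 1)) := (KK_lt_ll _).le.trans Nat.lt_two_pow_self.le
    calc 2 + ∑ j ∈ Finset.range (i + 1), 2 ^ (ll j) + 2 ^ (ll (i + 1))
        ≤ 2 ^ (ll (i + 1)) + 2 ^ (ll (i + 1)) := Nat.add_le_add_right (ih.trans h1) _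
      _ = 2 ^ (ll (i + 1) + 1) := by rw [pow_succ]; ring
      _ ≤ 2 ^ (2 ^ (ll (i + 1))) :=
          Nat.pow_le_pow_right (by norm_num) Nat.lt_two_pow_self
      _ = KK (i + 1 + 1) := (KK_succ (i + 1)).symm

/-! ## Patterns -/

lemma pat_mul {K l : ℕ} (hK : 1 ≤ K) (u : Fin l → Bool) (k : Fin l) :
    pat K l u ((k : ℕ) * K) = some (u k) := by
  have hK0 : (K : ℤ) ≠ 0 := by
    have : 0 < K := hK
    exact_mod_cast this.ne'
  have h1 : ((k : ℕ) : ℤ) * K / K = (k : ℕ) := Int.mul_ediv_cancel _ hK0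
  have h2 : (((k : ℕ) : ℤ) * K / K).toNat = k := by rw [h1]; simp
  unfold pat
  rw [dif_pos]
  · congr 2
    exact Fin.ext h2
  · refine ⟨by positivity, dvd_mul_left _ _, ?_⟩
    rw [h2]
    exact k.2

lemma pat_ne_none {K l : ℕ} (u : Fin l → Bool) {m : ℤ} (h : pat K l u m ≠ none) :
    ∃ k : ℕ, k < l ∧ m = k * K := by
  unfold pat at h
  split_ifs at h with h1
  · obtain ⟨h2, h3, h4⟩ := h1
    obtain ⟨z, hz⟩ := h3
    rcases Nat.eq_zero_or_pos K with hK | hK
    · subst hK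
      refine ⟨0, by omega, ?_⟩
      simpa using hz
    · have hKz : (0:ℤ) < K := by exact_mod_cast hK
      have h5 : m / K = z := by rw [hz]; exact Int.mul_ediv_cancel_left _ hKz.ne'
      have hz0 : 0 ≤ z := by
        by_contra hneg
        push Not at hneg
        have : m < 0 := by rw [hz]; exact mul_neg_of_pos_of_neg hKz hneg
        linarith
      rw [h5] at h4
      refine ⟨z.toNat, h4, ?_⟩
      rw [hz, Int.toNat_of_nonneg hz0, mul_comm]
  · exact absurd rfl h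

/-! ## Radius of the generators -/

lemma rad_gens (A : ℕ → Prop) : ∀ g ∈ gens A, Rad (word A) 1 g := by
  intro g hg
  simp only [gens, Set.mem_insert_iff, Set.mem_singleton_iff] at hg
  rcases hg with rfl | rfl | rfl | rfl | rfl
  · exact ⟨fun _ _ _ _ _ => rfl, by simp [gT]⟩
  · refine ⟨fun y m y' m' h => ?_, by simp [gL]⟩
    have := h 0 (by simp)
    rw [add_zero, add_zero] at this
    simp only [gL, this]
  · refine ⟨fun y m y' m' h => ?_, by simp [gL]⟩
    have := h 0 (by simp)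
    rw [add_zero, add_zero] at this
    simp only [gL, this]
  · exact ⟨fun _ _ _ _ _ => rfl, by simp [gC]⟩
  · exact ⟨fun _ _ _ _ _ => rfl, by simp [gC]⟩

lemma exists_rad (A : ℕ → Prop) (g : WW A) (hg : g ∈ Subgroup.closure (gens A)) :
    ∃ n, Rad (word A) n g := by
  induction hg using Subgroup.closure_induction with
  | mem x hx => exact ⟨1, rad_gens A x hx⟩
  | one => exact ⟨0, Rad.one _⟩
  | mul x y _ _ hx hy =>
    obtain ⟨m, hm⟩ := hx
    obtain ⟨n, hn⟩ := hy
    exact ⟨m + n, hm.mul hn⟩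
  | inv x _ hx =>
    obtain ⟨m, hm⟩ := hx
    exact ⟨2 * m, hm.inv⟩

lemma exists_rad_finite (A : ℕ → Prop) {F : Set (Grp A)} (hF : F.Finite) :
    ∃ R, 1 ≤ R ∧ ∀ g ∈ F, Rad (word A) R (g : WW A) := by
  choose n hn using fun g : Grp A => exists_rad A g.1 g.2
  obtain ⟨c, hc⟩ := (hF.image n).bddAbove
  exact ⟨c + 1, by omega, fun g hg => (hn g).mono ((hc ⟨g, hg, rfl⟩).trans (Nat.le_succ c))⟩

lemma exists_rad_ball (A : ℕ → Prop) {S : Set (Grp A)} (hS : S.Finite) :
    ∃ c, 1 ≤ c ∧ ∀ n, ∀ g ∈ ball S n, Rad (word A) (c * n) (g : WW A) := by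
  obtain ⟨c, hc1, hc⟩ := exists_rad_finite A (hS.union hS.inv)
  refine ⟨c, hc1, ?_⟩
  rintro n g ⟨l, hl, hlS, rfl⟩
  have key : ∀ l : List (Grp A), (∀ s ∈ l, s ∈ S ∨ s⁻¹ ∈ S) →
      Rad (word A) (c * l.length) ((l.prod : Grp A) : WW A) := by
    intro l
    induction l with
    | nil => intro _; simpa using Rad.one (P := Perm (Fin 5)) (word A)
    | cons a l ih =>
      intro h
      have h1 := ih (fun s hs => h s (List.mem_cons_of_mem _ hs))
      have h2 : Rad (word A) c (a : WW A) := by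
        apply hc
        rcases h a List.mem_cons_self with h | h
        · exact Or.inl h
        · exact Or.inr h
      rw [List.prod_cons, List.length_cons, Nat.mul_succ, add_comm, Subgroup.coe_mul]
      exact h2.mul h1
  exact (key l hlS).mono (Nat.mul_le_mul_left _ hl)

end Pool.Agent.R634.Lef
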