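import Mathlib
import Pool.Agent.R634.Lef.Words

/-!
# Lower bounds for LEF growth of `Grp A`
-/

namespace Pool.Agent.R634.Lef

open Pool.Agent.R634 Equiv

set_option maxRecDepth 10000 in
lemma xx_comm : (ss * xx * ss⁻¹) * (ss' * xx * ss'⁻¹) * (ss * xx * ss⁻¹)⁻¹ *
    (ss' * xx * ss'⁻¹)⁻¹ = xx := by decide

set_option maxRecDepth 10000 in
lemma xx_ne : xx * (ss * xx * ss⁻¹) ≠ (ss * xx * ss⁻¹) * xx := by decide

section

variable (A : ℕ → Prop)

/-- The pattern `v` occurs at `m`. -/
def Ind (K l : ℕ) (v : ℕ → Bool) (y : YY A) (m : ℤ) : Prop :=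
  ∀ k < l, word A y (m + (k : ℤ) * K) = some (v k)

open Classical in
/-- The element `p` at the places where the pattern `v` occurs. -/
noncomputable def EE (K l : ℕ) (v : ℕ → Bool) (p : Perm (Fin 5)) : WW A :=
  ⟨fun y m => if Ind A K l v y m then p else 1, 0⟩

/-- Pure shifts. -/
def TT : Multiplicative ℤ →* WW A where
  toFun z := ⟨fun _ _ => 1, z.toAdd⟩
  map_one' := rfl
  map_mul' a b := by
    ext y m
    · simp
    · simp

lemma TT_mem (z : ℤ) : TT A (Multiplicative.ofAdd z) ∈ ball (gens A) z.natAbs := by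
  have h1 : TT A (Multiplicative.ofAdd z) = gT A ^ z := by
    have h2 : Multiplicative.ofAdd z = (Multiplicative.ofAdd (1:ℤ)) ^ z := by
      rw [← ofAdd_zsmul, smul_eq_mul, mul_one]
    rw [h2, map_zpow]
    rfl
  rw [h1]
  have h3 : gT A ∈ ball (gens A) 1 := mem_ball_of_mem (by simp [gens])
  have h4 := zpow_mem_ball h3 z
  rwa [one_mul] at h4

variable {A}

lemma Ind_double {K l : ℕ} {v : ℕ → Bool} {y : YY A} {m : ℤ} :
    Ind A K (2 * l) v y m ↔
      Ind A K l v y m ∧ Ind A K l (fun k => v (k + l)) y (m + (l : ℤ) * K) := by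
  constructor
  · intro h
    refine ⟨fun k hk => h k (by omega), fun k hk => ?_⟩
    have := h (k + l) (by omega)
    rw [← this]
    congr 1
    push_cast
    ring
  · rintro ⟨h1, h2⟩ k hk
    rcases lt_or_ge k l with h | h
    · exact h1 k h
    · have := h2 (k - l) (by omega)
      have e1 : k - l + l = k := by omega
      simp only [e1] at this
      rw [← this]
      congr 1
      have e2 : ((k - l : ℕ) : ℤ) = (k : ℤ) - l := by push_cast [h]; ring
      rw [e2]
      ring

lemma EE_one (K : ℕ) (v : ℕ → Bool) : EE A K 1 v xx = gL A (v 0) := by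
  classical
  ext y m
  · simp only [EE, gL]
    have h1 : Ind A K 1 v y m ↔ word A y m = some (v 0) := by
      constructor
      · intro h
        have := h 0 (by omega)
        simpa using this
      · intro h k hk
        have : k = 0 := by omega
        subst this
        simpa using h
    by_cases h : word A y m = some (v 0)
    · rw [if_pos h, if_pos (h1.mpr h)]
    · rw [if_neg h, if_neg (fun h' => h (h1.mp h'))]
  · rfl

lemma EE_double (K l : ℕ) (v : ℕ → Bool) :
    EE A K (2 * l) v xx =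
      (gC A ss * EE A K l v xx * (gC A ss)⁻¹) *
      (TT A (Multiplicative.ofAdd (-((l : ℤ) * K))) *
        (gC A ss' * EE A K l (fun k => v (k + l)) xx * (gC A ss')⁻¹) *
        TT A (Multiplicative.ofAdd ((l : ℤ) * K))) *
      (gC A ss * EE A K l v xx * (gC A ss)⁻¹)⁻¹ *
      (TT A (Multiplicative.ofAdd (-((l : ℤ) * K))) *
        (gC A ss' * EE A K l (fun k => v (k + l)) xx * (gC A ss')⁻¹) *
        TT A (Multiplicative.ofAdd ((l : ℤ) * K)))⁻¹ := by
  classical
  have h1 : gC A ss * EE A K l v xx * (gC A ss)⁻¹ =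
      ⟨fun y m => if Ind A K l v y m then ss * xx * ss⁻¹ else 1, 0⟩ := by
    ext y m
    · simp only [Lamp.mul_f, Lamp.mul_s, Lamp.inv_f, gC, EE, sub_zero, add_zero]
      split_ifs <;> simp
    · simp [gC, EE]
  have h2 : TT A (Multiplicative.ofAdd (-((l : ℤ) * K))) *
        (gC A ss' * EE A K l (fun k => v (k + l)) xx * (gC A ss')⁻¹) *
        TT A (Multiplicative.ofAdd ((l : ℤ) * K)) =
      ⟨fun y m => if Ind A K l (fun k => v (k + l)) y (m + (l : ℤ) * K) then
        ss' * xx * ss'⁻¹ else 1, 0⟩ := by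
    ext y m
    · simp only [Lamp.mul_f, Lamp.mul_s, Lamp.inv_f, gC, EE, sub_zero, add_zero, TT,
        MonoidHom.coe_mk, OneHom.coe_mk, toAdd_ofAdd, sub_neg_eq_add, one_mul, mul_one]
      split_ifs <;> simp
    · simp [gC, EE, TT]
  rw [h1, h2]
  ext y m
  · simp only [Lamp.mul_f, Lamp.mul_s, Lamp.inv_f, Lamp.inv_s, EE, sub_zero, add_zero, neg_zero]
    by_cases p1 : Ind A K l v y m
    · by_cases p2 : Ind A K l (fun k => v (k + l)) y (m + (l : ℤ) * K)
      · rw [if_pos p1, if_pos p2, if_pos (Ind_double.mpr ⟨p1, p2⟩), xx_comm]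
      · rw [if_pos p1, if_neg p2, if_neg (fun h => p2 (Ind_double.mp h).2)]
        simp
    · rw [if_neg p1, if_neg (fun h => p1 (Ind_double.mp h).1)]
      simp
  · simp [EE]

lemma EE_mem {K : ℕ} (hK : 1 ≤ K) (j : ℕ) :
    ∀ v : ℕ → Bool, EE A K (2 ^ j) v xx ∈ ball (gens A) (7 * (K * 4 ^ j) - 6 * (K * 2 ^ j)) := by
  induction j with
  | zero =>
    intro v
    rw [pow_zero, pow_zero, EE_one]
    have h1 : gL A (v 0) ∈ ball (gens A) 1 := by
      apply mem_ball_of_mem
      cases v 0 <;> simp [gens]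
    exact ball_mono (by omega) h1
  | succ j ih =>
    intro v
    set p := K * 4 ^ j with hp
    set r := K * 2 ^ j with hr
    have e1 : K * 4 ^ (j + 1) = 4 * p := by rw [hp, pow_succ]; ring
    have e2 : K * 2 ^ (j + 1) = 2 * r := by rw [hr, pow_succ]; ring
    have hrp : r ≤ p := Nat.mul_le_mul_left _ (Nat.pow_le_pow_left (by norm_num) j)
    have hr1 : 1 ≤ r := Nat.mul_pos hK (by positivity)
    rw [e1, e2, pow_succ, mul_comm (2 ^ j) 2, EE_double]
    have hs : gC A ss ∈ ball (gens A) 1 := mem_ball_of_mem (by simp [gens])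
    have hs' : gC A ss' ∈ ball (gens A) 1 := mem_ball_of_mem (by simp [gens])
    have h1 := mul_mem_ball (mul_mem_ball hs (ih v)) (inv_mem_ball hs)
    have h2 := mul_mem_ball (mul_mem_ball hs' (ih (fun k => v (k + 2 ^ j)))) (inv_mem_ball hs')
    have hT1 := TT_mem A (-(((2 ^ j : ℕ) : ℤ) * K))
    have hT2 := TT_mem A (((2 ^ j : ℕ) : ℤ) * K)
    have hn : (((2 ^ j : ℕ) : ℤ) * K).natAbs = r := by
      rw [Int.natAbs_mul, Int.natAbs_natCast, Int.natAbs_natCast, hr, mul_comm]
    rw [Int.natAbs_neg, hn] at hT1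
    rw [hn] at hT2
    have h3 := mul_mem_ball (mul_mem_ball hT1 h2) hT2
    have h4 := mul_mem_ball (mul_mem_ball (mul_mem_ball h1 h3) (inv_mem_ball h1))
      (inv_mem_ball h3)
    refine ball_mono ?_ h4
    omega

end

/-- Extend a pattern by `false`. -/
def extb {l : ℕ} (u : Fin l → Bool) (k : ℕ) : Bool := if h : k < l then u ⟨k, h⟩ else false

lemma Ind_extb_unique {A : ℕ → Prop} {K l : ℕ} {u v : Fin l → Bool} {y : YY A} {m : ℤ}
    (hu : Ind A K l (extb u) y m) (hv : Ind A K l (extb v) y m) : u = v := by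
  funext k
  have h1 := hu k k.2
  have h2 := hv k k.2
  rw [h1] at h2
  have h3 : extb u k = extb v k := Option.some.inj h2
  simpa [extb] using h3

theorem lower (A : ℕ → Prop) {S : Set (Grp A)} (hS : Subgroup.closure S = ⊤) :
    ∃ c : ℕ, 1 ≤ c ∧ ∀ i, A i → ∀ n, c * (KK i * ll i ^ 2) ≤ n →
      ∀ m ∈ lefSet S n, 2 ^ (2 ^ (ll i)) ≤ m := by
  classical
  -- the generators inside the group
  let gens' : Set (Grp A) := {g | (g : WW A) ∈ gens A}
  have hfin : gens'.Finite := by
    have h1 : (gens A).Finite := by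
      unfold gens
      exact Set.toFinite _
    exact h1.preimage (Subtype.val_injective.injOn)
  obtain ⟨c, hc1, hc⟩ := exists_subset_ball hS hfin
  -- transfer of balls
  have htrans : ∀ (n : ℕ) (g : WW A), g ∈ ball (gens A) n → ∃ g' : Grp A, (g' : WW A) = g ∧
      g' ∈ ball gens' n := by
    rintro n g ⟨l, hl, hlS, rfl⟩
    have key : ∀ l : List (WW A), (∀ s ∈ l, s ∈ gens A ∨ s⁻¹ ∈ gens A) →
        ∃ g' : Grp A, (g' : WW A) = l.prod ∧ g' ∈ ball gens' l.length := by
      intro l
      induction l with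
      | nil => intro _; exact ⟨1, by simp, one_mem_ball _⟩
      | cons a l ih =>
        intro h
        obtain ⟨g', hg', hgb⟩ := ih (fun s hs => h s (List.mem_cons_of_mem _ hs))
        have ha := h a List.mem_cons_self
        have hamem : a ∈ Subgroup.closure (gens A) := by
          rcases ha with h | h
          · exact Subgroup.subset_closure h
          · exact inv_mem_iff.mp (Subgroup.subset_closure h)
        refine ⟨⟨a, hamem⟩ * g', by simp [hg'], ?_⟩
        have h1 : (⟨a, hamem⟩ : Grp A) ∈ ball gens' 1 := by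
          rcases ha with h | h
          · exact mem_ball_of_mem h
          · have : (⟨a, hamem⟩ : Grp A)⁻¹ ∈ ball gens' 1 := mem_ball_of_mem h
            simpa using inv_mem_ball this
        rw [List.length_cons, add_comm]
        exact mul_mem_ball h1 hgb
    obtain ⟨g', h1, h2⟩ := key l hlS
    exact ⟨g', h1, ball_mono hl h2⟩
  refine ⟨14 * c, by omega, ?_⟩
  intro i hi n hn m hm
  obtain ⟨Q, iQ, fQ, π, ⟨hπ1, hπ2⟩, rfl⟩ := hm
  have hKpos := KK_pos i
  -- the elements
  set b : ℕ := 7 * (KK i * 4 ^ (KK i)) - 6 * (KK i * 2 ^ (KK i)) with hb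
  have hb1 : b + 2 ≤ 7 * (KK i * ll i ^ 2) := by
    have e1 : ll i ^ 2 = 4 ^ (KK i) := by
      rw [ll, ← pow_mul, mul_comm, pow_mul]; norm_num
    rw [e1]
    have e2 : 1 ≤ KK i * 2 ^ (KK i) := Nat.mul_pos hKpos (by positivity)
    have e3 : KK i * 2 ^ (KK i) ≤ KK i * 4 ^ (KK i) :=
      Nat.mul_le_mul_left _ (Nat.pow_le_pow_left (by norm_num) _)
    omega
  have hE : ∀ v : Fin (ll i) → Bool, ∃ g : Grp A, (g : WW A) = EE A (KK i) (ll i) (extb v) xx ∧
      g ∈ ball gens' b := fun v => htrans b _ (EE_mem hKpos (KK i) (extb v))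
  have hE' : ∀ v : Fin (ll i) → Bool, ∃ g : Grp A, (g : WW A) =
      gC A ss * EE A (KK i) (ll i) (extb v) xx * (gC A ss)⁻¹ ∧ g ∈ ball gens' (b + 2) := by
    intro v
    have hs : gC A ss ∈ ball (gens A) 1 := mem_ball_of_mem (by simp [gens])
    have h1 := mul_mem_ball (mul_mem_ball hs (EE_mem hKpos (KK i) (extb v))) (inv_mem_ball hs)
    obtain ⟨g, h2, h3⟩ := htrans _ _ h1
    exact ⟨g, h2, ball_mono (by omega) h3⟩
  choose e he1 he2 using hE
  choose f hf1 hf2 using hE'
  have hcb : 2 * (c * (b + 2)) ≤ n := by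
    have : c * (b + 2) ≤ c * (7 * (KK i * ll i ^ 2)) := Nat.mul_le_mul_left _ hb1
    calc 2 * (c * (b + 2)) ≤ 2 * (c * (7 * (KK i * ll i ^ 2))) := Nat.mul_le_mul_left _ this
      _ = 14 * c * (KK i * ll i ^ 2) := by ring
      _ ≤ n := hn
  have he3 : ∀ v, e v ∈ ball S (c * (b + 2)) := fun v =>
    ball_subset_ball hc _ (ball_mono (by omega) (he2 v))
  have hf3 : ∀ v, f v ∈ ball S (c * (b + 2)) := fun v => ball_subset_ball hc _ (hf2 v)
  have hprod : ∀ {g h : Grp A}, g ∈ ball S (c * (b + 2)) → h ∈ ball S (c * (b + 2)) →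
      g ∈ ball S n ∧ h ∈ ball S n ∧ g * h ∈ ball S n := by
    intro g h hg hh
    refine ⟨ball_mono (by omega) hg, ball_mono (by omega) hh, ball_mono ?_ (mul_mem_ball hg hh)⟩
    omega
  have hmul : ∀ {g h : Grp A}, g ∈ ball S (c * (b + 2)) → h ∈ ball S (c * (b + 2)) →
      π (g * h) = π g * π h := by
    intro g h hg hh
    obtain ⟨h1, h2, h3⟩ := hprod hg hh
    exact hπ2 g h1 h h2 h3
  -- explicit forms
  have hfv : ∀ v, (f v : WW A) =
      ⟨fun y m => if Ind A (KK i) (ll i) (extb v) y m then ss * xx * ss⁻¹ else 1, 0⟩ := by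
    intro v
    rw [hf1]
    ext y m
    · simp only [Lamp.mul_f, Lamp.mul_s, Lamp.inv_f, gC, EE, sub_zero, add_zero]
      split_ifs <;> simp
    · simp [gC, EE]
  have hev : ∀ v, (e v : WW A) =
      ⟨fun y m => if Ind A (KK i) (ll i) (extb v) y m then xx else 1, 0⟩ := fun v => he1 v
  have hee : ∀ u v, e u * e v = e v * e u := by
    intro u v
    apply Subtype.ext
    rw [Subgroup.coe_mul, Subgroup.coe_mul, hev, hev]
    ext y m
    · simp only [Lamp.mul_f, sub_zero]
      split_ifs <;> simp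
    · simp
  have hef : ∀ u v, u ≠ v → e u * f v = f v * e u := by
    intro u v huv
    apply Subtype.ext
    rw [Subgroup.coe_mul, Subgroup.coe_mul, hev, hfv]
    ext y m
    · simp only [Lamp.mul_f, sub_zero]
      by_cases p1 : Ind A (KK i) (ll i) (extb u) y m
      · by_cases p2 : Ind A (KK i) (ll i) (extb v) y m
        · exact absurd (Ind_extb_unique p1 p2) huv
        · simp [p2]
      · simp [p1]
    · simp
  have hne : ∀ v, e v * f v ≠ f v * e v := by
    intro v h
    have h1 := congrArg Subtype.val h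
    rw [Subgroup.coe_mul, Subgroup.coe_mul, hev, hfv] at h1
    have h2 := congrArg Lamp.f h1
    have h3 := congrFun (congrFun h2 (Sum.inr ⟨⟨i, hi⟩, v⟩)) 0
    have hInd : Ind A (KK i) (ll i) (extb v) (Sum.inr ⟨⟨i, hi⟩, v⟩) 0 := by
      intro k hk
      have h4 := pat_mul hKpos v ⟨k, hk⟩
      rw [zero_add]
      show pat (KK i) (ll i) v ((k : ℤ) * KK i) = some (extb v k)
      rw [h4]
      simp [extb, hk]
    simp only [Lamp.mul_f, sub_zero, if_pos hInd] at h3
    exact xx_ne h3
  have := two_pow_le_card (fun v => π (e v)) (fun v => π (f v))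
    (fun u v => by rw [← hmul (he3 u) (he3 v), ← hmul (he3 v) (he3 u), hee])
    (fun u v huv => by rw [← hmul (he3 u) (hf3 v), ← hmul (hf3 v) (he3 u), hef u v huv])
    (fun v h => by
      rw [← hmul (he3 v) (hf3 v), ← hmul (hf3 v) (he3 v)] at h
      exact hne v (hπ1 (hprod (he3 v) (hf3 v)).2.2 (hprod (hf3 v) (he3 v)).2.2 h))
  rwa [Fintype.card_fun, Fintype.card_bool, Fintype.card_fin] at this

end Pool.Agent.R634.Lef
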