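import Mathlib
import Pool.Agent.R634.Lef.Words

/-!
# Upper bounds for LEF growth of `Grp A`
-/

namespace Pool.Agent.R634.Lef

open Pool.Agent.R634 Equiv

section

variable (A : ℕ → Prop) (i : ℕ)

/-- Truncation. -/
def trunc (j : ℕ) : Prop := A j ∧ j < i

/-- Inclusion of index sets. -/
def incl : YY (trunc A i) → YY A
  | Sum.inl a => Sum.inl a
  | Sum.inr ⟨j, u⟩ => Sum.inr ⟨⟨j.1, j.2.1⟩, u⟩

lemma word_incl (y : YY (trunc A i)) (m : ℤ) :
    word A (incl A i y) m = word (trunc A i) y m := by
  cases y with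
  | inl a => rfl
  | inr p => rfl

instance : Finite {j // trunc A i j} :=
  Finite.of_injective (fun j : {j // trunc A i j} => (⟨j.1, j.2.2⟩ : Fin i))
    (fun _ _ h => Subtype.ext (congrArg Fin.val h))

instance : Finite (YY (trunc A i)) := by
  unfold YY
  infer_instance

lemma card_YY_le : Nat.card (YY (trunc A i)) ≤ 2 + ∑ j ∈ Finset.range i, 2 ^ (ll j) := by
  let e : YY (trunc A i) → (Bool ⊕ (Σ j : Fin i, (Fin (ll j.1) → Bool))) := fun y =>
    match y with
    | Sum.inl a => Sum.inl a
    | Sum.inr ⟨j, u⟩ => Sum.inr ⟨⟨j.1, j.2.2⟩, u⟩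
  have he : Function.Injective e := by
    intro a b hab
    rcases a with a | ⟨⟨j, hj⟩, u⟩ <;> rcases b with b | ⟨⟨j', hj'⟩, u'⟩
    · simp only [e, Sum.inl.injEq] at hab
      rw [hab]
    · simp [e] at hab
    · simp [e] at hab
    · simp only [e, Sum.inr.injEq, Sigma.mk.injEq, Fin.mk.injEq] at hab
      obtain ⟨h1, h2⟩ := hab
      subst h1
      have := eq_of_heq h2
      subst this
      rfl
  have h1 := Nat.card_le_card_of_injective e he
  refine h1.trans ?_
  rw [Nat.card_eq_fintype_card, Fintype.card_sum, Fintype.card_bool, Fintype.card_sigma]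
  have h2 : ∀ j : Fin i, Fintype.card (Fin (ll j.1) → Bool) = 2 ^ (ll j.1) := by
    intro j
    rw [Fintype.card_fun, Fintype.card_bool, Fintype.card_fin]
  rw [Finset.sum_congr rfl fun j _ => h2 j, Fin.sum_univ_eq_sum_range (fun j => 2 ^ (ll j))]

variable {A i}

lemma word_support {N : ℕ} (hN1 : 1 ≤ N) (hN : ∀ j, A j → j < i → ll j * KK j ≤ N)
    (y : YY (trunc A i)) {m : ℤ} (h : word (trunc A i) y m ≠ none) : 0 ≤ m ∧ m < N := by
  rcases y with a | ⟨⟨j, hj⟩, u⟩
  · simp only [word] at h
    have hm : m = 0 := by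
      by_contra hm
      simp [hm] at h
    rw [hm]
    exact ⟨le_rfl, by exact_mod_cast hN1⟩
  · obtain ⟨k, hk, rfl⟩ := pat_ne_none u h
    refine ⟨by positivity, ?_⟩
    have h1 : k * KK j < ll j * KK j := Nat.mul_lt_mul_of_pos_right hk (KK_pos j)
    have h2 := hN j hj.1 hj.2
    exact_mod_cast h1.trans_le h2

lemma word_wrap {N R q : ℕ} (hN1 : 1 ≤ N) (hN : ∀ j, A j → j < i → ll j * KK j ≤ N)
    (hq : q = N + 4 * R + 1) [NeZero q] (y : YY (trunc A i)) {z : ℤ} (hz1 : -(4 * R : ℤ) ≤ z)
    (hz2 : z < q) : word (trunc A i) y (((z : ZMod q).val : ℕ) : ℤ) = word (trunc A i) y z := by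
  have hval : (((z : ZMod q).val : ℕ) : ℤ) = z % q := ZMod.val_intCast z
  rw [hval]
  rcases le_or_gt 0 z with h0 | h0
  · rw [Int.emod_eq_of_lt h0 hz2]
  · have h1 : z % q = z + q := by
      have h2 : z % (q:ℤ) = (z + q) % q := by simp
      rw [h2]
      apply Int.emod_eq_of_lt
      · rw [hq]; push_cast; linarith
      · linarith
    rw [h1]
    have e1 : word (trunc A i) y z = none := by
      by_contra h
      have := (word_support hN1 hN y h).1
      linarith
    have e2 : word (trunc A i) y (z + q) = none := by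
      by_contra h
      have := (word_support hN1 hN y h).2
      rw [hq] at this
      push_cast at this
      linarith
    rw [e1, e2]

theorem upper (A : ℕ → Prop) (i N R : ℕ) (hR : 1 ≤ R) (hA : ∀ j, A j → j < i ∨ 2 * R < KK j)
    (hN1 : 1 ≤ N) (hN : ∀ j, A j → j < i → ll j * KK j ≤ N) (F : Set (Grp A))
    (hF : ∀ g ∈ F, Rad (word A) R (g : WW A)) :
    ∃ (Q : Type) (_ : Group Q) (_ : Finite Q) (π : Grp A → Q), IsLocalEmbedding F π ∧
      Nat.card Q = 120 ^ (Nat.card (YY (trunc A i)) * (N + 4 * R + 1)) * (N + 4 * R + 1) := by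
  classical
  set q : ℕ := N + 4 * R + 1 with hq
  have hqne : NeZero q := ⟨by omega⟩
  let c' : YY (trunc A i) → ZMod q → Option Bool := fun y z => word (trunc A i) y ((z.val : ℕ) : ℤ)
  have hwrap : ∀ (y : YY (trunc A i)) (z : ℤ), -(4 * R : ℤ) ≤ z → z < q →
      c' y (z : ZMod q) = word (trunc A i) y z := fun y z h1 h2 => word_wrap hN1 hN hq y h1 h2
  have hqZ : (q : ℤ) = N + 4 * R + 1 := by rw [hq]; push_cast; ring
  have hRZ : (1 : ℤ) ≤ R := by exact_mod_cast hR
  have hNZ : (1 : ℤ) ≤ N := by exact_mod_cast hN1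
  have key := exists_localEmbedding (P := Perm (Fin 5)) (R := R) (q := q) (by omega) (word A) c'
    ?_ ?_ (Subtype.val '' F) ?_
  · obtain ⟨π, hπ1, hπ2⟩ := key
    obtain ⟨hfin, hcard⟩ := Lamp.card_lamp (YY (trunc A i)) (ZMod q) (Perm (Fin 5))
    refine ⟨Lamp (YY (trunc A i)) (ZMod q) (Perm (Fin 5)), inferInstance, hfin,
      fun g => π g.1, ⟨?_, ?_⟩, ?_⟩
    · intro g hg h hh hgh
      exact Subtype.ext (hπ1 ⟨g, hg, rfl⟩ ⟨h, hh, rfl⟩ hgh)
    · intro g hg h hh hgh
      exact hπ2 g.1 ⟨g, hg, rfl⟩ h.1 ⟨h, hh, rfl⟩ ⟨g * h, hgh, rfl⟩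
    · rw [hcard, Nat.card_eq_fintype_card (α := Perm (Fin 5)), Fintype.card_perm,
        Fintype.card_fin, Nat.card_eq_fintype_card (α := ZMod q), ZMod.card]
      rfl
  · -- windows of the finite system occur in the infinite one
    intro y' m'
    set r : ℤ := if ((m'.val : ℕ) : ℤ) < q - 2 * R then ((m'.val : ℕ) : ℤ)
      else ((m'.val : ℕ) : ℤ) - q with hr
    have hv1 : (0 : ℤ) ≤ ((m'.val : ℕ) : ℤ) := Nat.cast_nonneg _
    have hv2 : ((m'.val : ℕ) : ℤ) < q := by exact_mod_cast ZMod.val_lt m'
    have hr1 : -(2 * R : ℤ) ≤ r ∧ r < q - 2 * R := by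
      rw [hr]
      split_ifs with h
      · constructor <;> linarith
      · push Not at h
        constructor <;> linarith
    have hr2 : ((r : ℤ) : ZMod q) = m' := by
      rw [hr]
      split_ifs with h
      · simp
      · simp
    refine ⟨incl A i y', r, ?_⟩
    intro j hj
    rw [abs_le] at hj
    rw [word_incl, ← hwrap y' (r + j) (by linarith [hj.1, hr1.1]) (by linarith [hj.2, hr1.2])]
    rw [Int.cast_add, hr2]
  · -- windows of the infinite system occur in the finite one
    intro y m
    by_cases hz : ∀ j : ℤ, |j| ≤ R → word A y (m + j) = none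
    · refine ⟨Sum.inl true, ((-(R + 1) : ℤ) : ZMod q), ?_⟩
      intro j hj
      rw [hz j hj]
      rw [abs_le] at hj
      rw [← Int.cast_add, hwrap _ _ (by linarith [hj.1]) (by linarith [hj.2])]
      have : -((R : ℤ) + 1) + j ≠ 0 := by
        intro h
        linarith [hj.2]
      exact (if_neg this).symm
    · push Not at hz
      obtain ⟨j₀, hj₀, hne⟩ := hz
      -- small words
      have small : ∀ y' : YY (trunc A i), y = incl A i y' →
          ∃ (y' : YY (trunc A i)) (m' : ZMod q), ∀ j : ℤ, |j| ≤ R →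
            word A y (m + j) = c' y' (m' + j) := by
        rintro y' rfl
        rw [word_incl] at hne
        have h1 := word_support hN1 hN y' hne
        rw [abs_le] at hj₀
        refine ⟨y', (m : ZMod q), ?_⟩
        intro j hj
        rw [abs_le] at hj
        rw [word_incl, ← Int.cast_add, hwrap _ _ (by linarith [hj.1, hj₀.2, h1.1])
          (by linarith [hj.2, hj₀.1, h1.2])]
      rcases y with a | ⟨⟨j, hjA⟩, u⟩
      · exact small (Sum.inl a) rfl
      · rcases hA j hjA with hji | hjK
        · exact small (Sum.inr ⟨⟨j, hjA, hji⟩, u⟩) rfl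
        · -- a single letter
          obtain ⟨k₀, hk₀, hm₀⟩ := pat_ne_none u hne
          obtain ⟨a, ha⟩ := Option.ne_none_iff_exists'.mp hne
          refine ⟨Sum.inl a, ((-j₀ : ℤ) : ZMod q), ?_⟩
          intro d hd
          rw [abs_le] at hd hj₀
          rw [← Int.cast_add, hwrap _ _ (by linarith [hd.1, hj₀.2]) (by linarith [hd.2, hj₀.1])]
          by_cases hdj : d = j₀
          · subst hdj
            rw [ha]
            simp [word]
          · have h3 : -j₀ + d ≠ 0 := by
              intro h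
              apply hdj
              linarith
            have h4 : word A (Sum.inr ⟨⟨j, hjA⟩, u⟩) (m + d) = none := by
              by_contra hne'
              obtain ⟨k₁, hk₁, hm₁⟩ := pat_ne_none u hne'
              have h5 : ((k₁ : ℤ) - k₀) * KK j = d - j₀ := by
                have e1 : m + j₀ = k₀ * KK j := hm₀
                have e2 : m + d = k₁ * KK j := hm₁
                linarith
              have h6 : (k₁ : ℤ) - k₀ ≠ 0 := by
                intro h
                rw [h, zero_mul] at h5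
                apply hdj
                linarith
              have h7 : (KK j : ℤ) ≤ |d - j₀| := by
                rw [← h5, abs_mul, abs_of_nonneg (Nat.cast_nonneg (α := ℤ) (KK j))]
                have h8 : 1 ≤ |(k₁ : ℤ) - k₀| := Int.one_le_abs h6
                nlinarith [Nat.cast_nonneg (α := ℤ) (KK j)]
              have h9 : |d - j₀| ≤ 2 * R := by
                rw [abs_le]
                constructor <;> linarith [hd.1, hd.2, hj₀.1, hj₀.2]
              have h10 : (2 * (R : ℤ)) < KK j := by exact_mod_cast hjK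
              linarith
            rw [h4]
            simp [word, h3]
  · rintro _ ⟨g, hg, rfl⟩
    exact hF g hg

end

end Pool.Agent.R634.Lef
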